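import Pool.Agent.Helper65_PV.Stmts

/-!
Squad PV, module TR: transfer of the data to coordinates.
-/

set_option autoImplicit false
set_option linter.unusedSectionVars false

open MeasureTheory Metric Set Filter Topology

namespace PV.TR

/-- The Hausdorff measure on the range of an injective linear map is a multiple of the image of a
Haar measure. -/
lemma haar_image {F : Type} [NormedAddCommGroup F] [NormedSpace ℝ F] [FiniteDimensional ℝ F]
    [MeasurableSpace F] [BorelSpace F] (M : Measure F) [M.IsAddHaarMeasure] {n : ℕ}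
    (A : F →ₗ[ℝ] E n) (hA : Function.Injective A) (hfin : Module.finrank ℝ F + 1 = n) :
    ∃ κ : NNReal, κ ≠ 0 ∧
      (Measure.hausdorffMeasure ((n : ℝ) - 1) : Measure (E n)).restrict (Set.range A) =
        κ • (M.map A) := by
  obtain ⟨W, hW⟩ : ∃ W : Submodule ℝ (E n), W = LinearMap.range A := ⟨_, rfl⟩
  subst hW
  let e : F ≃ₗ[ℝ] LinearMap.range A := LinearEquiv.ofInjective A hA
  let eL : F ≃L[ℝ] LinearMap.range A := e.toContinuousLinearEquiv
  have hd : (n : ℝ) - 1 = (Module.finrank ℝ (LinearMap.range A) : ℝ) := by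
    rw [← e.finrank_eq, ← hfin]; push_cast; ring
  let μW : Measure (LinearMap.range A) := Measure.hausdorffMeasure ((n : ℝ) - 1)
  have hμW : μW.IsAddHaarMeasure := by
    show (Measure.hausdorffMeasure ((n : ℝ) - 1) :
      Measure (LinearMap.range A)).IsAddHaarMeasure
    rw [hd]
    infer_instance
  have hM' : (μW.map eL.symm).IsAddHaarMeasure := eL.symm.isAddHaarMeasure_map μW
  have hAmeas : Measurable A := (LinearMap.continuous_of_finiteDimensional A).measurable
  refine ⟨Measure.addHaarScalarFactor (μW.map eL.symm) M,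
    (Measure.addHaarScalarFactor_pos_of_isAddHaarMeasure _ _).ne', ?_⟩
  have hsm := Measure.isAddLeftInvariant_eq_smul (μW.map eL.symm) M
  ext S hS
  rw [Measure.restrict_apply hS, Measure.smul_apply, Measure.map_apply hAmeas hS,
    ← Measure.smul_apply, ← hsm, Measure.map_apply eL.symm.continuous.measurable (hAmeas hS)]
  have h1 : S ∩ Set.range A = (Subtype.val : LinearMap.range A → E n) '' (Subtype.val ⁻¹' S) := by
    ext x
    constructor
    · rintro ⟨hx, a, rfl⟩
      exact ⟨⟨A a, a, rfl⟩, hx, rfl⟩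
    · rintro ⟨y, hy, rfl⟩
      obtain ⟨a, ha⟩ := y.2
      exact ⟨hy, a, ha⟩
  have h2 : (eL.symm ⁻¹' (A ⁻¹' S)) = (Subtype.val : LinearMap.range A → E n) ⁻¹' S := by
    ext y
    simp only [Set.mem_preimage]
    have : A (eL.symm y) = (y : E n) := by
      have h3 := e.apply_symm_apply y
      have h4 : ((e (e.symm y) : LinearMap.range A) : E n) = A (e.symm y) := rfl
      rw [h3] at h4
      exact h4.symm
    rw [this]
  rw [h1, h2]
  have h0 : (0 : ℝ) ≤ (n : ℝ) - 1 := by rw [hd]; positivity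
  exact isometry_subtype_coe.hausdorffMeasure_image (Or.inl h0) _

variable {Z : Type} [NormedAddCommGroup Z] [InnerProductSpace ℝ Z] [FiniteDimensional ℝ Z]

/-- The coordinates as a linear map. -/
noncomputable def coordL {n : ℕ} (u ν : E n) (ι : Z →ₗᵢ[ℝ] E n) : (ℝ × ℝ × Z) →ₗ[ℝ] E n where
  toFun := coord u ν ι
  map_add' p q := by
    simp only [coord, Prod.fst_add, Prod.snd_add, add_smul, map_add]
    abel
  map_smul' c p := by
    simp only [coord, Prod.smul_fst, Prod.smul_snd, smul_eq_mul, mul_smul, map_smul, smul_add,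
      RingHom.id_apply]

/-- The shadow map composed with the projection. -/
noncomputable def shadowL {n : ℕ} (w ν : E n) (ι : Z →ₗᵢ[ℝ] E n) : (ℝ × Z) →ₗ[ℝ] E n where
  toFun p := proj w (p.1 • ν + ι p.2)
  map_add' p q := by
    simp only [proj, Prod.fst_add, Prod.snd_add, add_smul, map_add, inner_add_left]
    abel
  map_smul' c p := by
    simp only [proj, Prod.smul_fst, Prod.smul_snd, smul_eq_mul, mul_smul, map_smul, smul_sub,
      smul_add, RingHom.id_apply, inner_add_left, inner_smul_left, add_smul]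
    simp only [conj_trivial]

lemma coord_inner_u {n : ℕ} {u ν : E n} {ι : Z →ₗᵢ[ℝ] E n} (hu : ‖u‖ = 1)
    (huν : inner ℝ u ν = 0) (hu' : ∀ z, inner ℝ u (ι z) = 0) (p : ℝ × ℝ × Z) :
    inner ℝ u (coord u ν ι p) = p.1 := by
  simp only [coord, inner_add_right, inner_smul_right, huν, hu', mul_zero, add_zero]
  rw [real_inner_self_eq_norm_sq, hu]; ring

lemma coord_inner_nu {n : ℕ} {u ν : E n} {ι : Z →ₗᵢ[ℝ] E n} (hν : ‖ν‖ = 1)
    (huν : inner ℝ u ν = 0) (hν' : ∀ z, inner ℝ ν (ι z) = 0) (p : ℝ × ℝ × Z) :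
    inner ℝ ν (coord u ν ι p) = p.2.1 := by
  simp only [coord, inner_add_right, inner_smul_right, hν', real_inner_comm u ν, huν, mul_zero,
    add_zero, zero_add]
  rw [real_inner_self_eq_norm_sq, hν]; ring

lemma coord_injective {n : ℕ} {u ν : E n} {ι : Z →ₗᵢ[ℝ] E n} (hu : ‖u‖ = 1) (hν : ‖ν‖ = 1)
    (huν : inner ℝ u ν = 0) (hu' : ∀ z, inner ℝ u (ι z) = 0) (hν' : ∀ z, inner ℝ ν (ι z) = 0) :
    Function.Injective (coordL u ν ι) := by
  rw [← LinearMap.ker_eq_bot, LinearMap.ker_eq_bot']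
  intro p hp
  have hp' : coord u ν ι p = 0 := hp
  have h1 := coord_inner_u (ι := ι) hu huν hu' p
  have h2 := coord_inner_nu (ι := ι) hν huν hν' p
  rw [hp', inner_zero_right] at h1 h2
  have h3 : ι p.2.2 = 0 := by
    have : coord u ν ι p = p.1 • u + p.2.1 • ν + ι p.2.2 := rfl
    rw [this, ← h1, ← h2] at hp'
    simpa using hp'
  have h4 : p.2.2 = 0 := by
    rw [← map_zero ι] at h3
    exact ι.injective h3
  exact Prod.ext h1.symm (Prod.ext h2.symm h4)

lemma coord_bijective {n : ℕ} {u ν : E n} {ι : Z →ₗᵢ[ℝ] E n} (hfin : Module.finrank ℝ Z + 2 = n)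
    (hu : ‖u‖ = 1) (hν : ‖ν‖ = 1)
    (huν : inner ℝ u ν = 0) (hu' : ∀ z, inner ℝ u (ι z) = 0) (hν' : ∀ z, inner ℝ ν (ι z) = 0) :
    Function.Bijective (coordL u ν ι) := by
  have hinj := coord_injective (ι := ι) hu hν huν hu' hν'
  refine ⟨hinj, ?_⟩
  refine (LinearMap.injective_iff_surjective_of_finrank_eq_finrank ?_).1 hinj
  simp only [Module.finrank_prod, Module.finrank_self, finrank_euclideanSpace, Fintype.card_fin]
  omega

lemma proj_self {n : ℕ} {w : E n} (hw : ‖w‖ = 1) (c : ℝ) (x : E n) :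
    proj w (c • w + x) = proj w x := by
  simp only [proj, inner_add_left, inner_smul_left, conj_trivial]
  rw [real_inner_self_eq_norm_sq, hw]
  module

/-- Injectivity of the shadow map. -/
lemma shadow_injective {n : ℕ} {u ν w : E n} {ι : Z →ₗᵢ[ℝ] E n} {t d : ℝ} (hd : d ≠ 0)
    (hw : w = d • (u + t • ν)) (hu : ‖u‖ = 1) (hν : ‖ν‖ = 1)
    (huν : inner ℝ u ν = 0) (hu' : ∀ z, inner ℝ u (ι z) = 0) (hν' : ∀ z, inner ℝ ν (ι z) = 0) :
    Function.Injective (shadowL w ν ι) := by
  rw [← LinearMap.ker_eq_bot, LinearMap.ker_eq_bot']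
  intro p hp
  have hp' : (p.1 • ν + ι p.2) - (inner ℝ (p.1 • ν + ι p.2) w) • w = 0 := hp
  obtain ⟨c, hc⟩ : ∃ c : ℝ, c = inner ℝ (p.1 • ν + ι p.2) w := ⟨_, rfl⟩
  rw [← hc, sub_eq_zero] at hp'
  have h1 := congrArg (fun x => inner ℝ u x) hp'
  simp only [inner_add_right, inner_smul_right, huν, hu', hw, real_inner_self_eq_norm_sq, hu,
    mul_zero, add_zero] at h1
  have hc0 : c = 0 := by
    have h2 : c * d = 0 := by nlinarith
    rcases mul_eq_zero.1 h2 with h | h
    · exact h
    · exact absurd h hd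
  rw [hc0, zero_smul] at hp'
  have h2 := congrArg (fun x => inner ℝ ν x) hp'
  simp only [inner_add_right, inner_smul_right, hν', real_inner_self_eq_norm_sq, hν,
    inner_zero_right, add_zero] at h2
  have hp1 : p.1 = 0 := by nlinarith
  rw [hp1, zero_smul, zero_add, ← map_zero ι] at hp'
  exact Prod.ext hp1 (ι.injective hp')

/-- The projection as an image of the shadow. -/
lemma proj_image {n : ℕ} {u ν w : E n} {ι : Z →ₗᵢ[ℝ] E n} {t d : ℝ} (hd : d ≠ 0)
    (hw : w = d • (u + t • ν)) (hw1 : ‖w‖ = 1) (hsurj : Function.Surjective (coordL u ν ι))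
    (K : Set (E n)) :
    proj w '' K = shadowL w ν ι '' (shadow t (coord u ν ι ⁻¹' K)) := by
  have hwd : u + t • ν = d⁻¹ • w := by rw [hw, smul_smul, inv_mul_cancel₀ hd, one_smul]
  have key : ∀ (s ρ : ℝ) (z : Z), proj w (coord u ν ι (s, ρ + t * s, z)) =
      shadowL w ν ι (ρ, z) := by
    intro s ρ z
    have h1 : coord u ν ι (s, ρ + t * s, z) = (s * d⁻¹) • w + (ρ • ν + ι z) := by
      have h2 : coord u ν ι (s, ρ + t * s, z) = s • (u + t • ν) + (ρ • ν + ι z) := by
        simp only [coord]; module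
      rw [h2, hwd, smul_smul]
    rw [h1, proj_self hw1]
    rfl
  ext y
  constructor
  · rintro ⟨x, hx, rfl⟩
    obtain ⟨⟨s, r, z⟩, hp⟩ := hsurj x
    have hp' : coord u ν ι (s, r, z) = x := hp
    refine ⟨(r - t * s, z), ⟨s, ?_⟩, ?_⟩
    · simp only [sub_add_cancel, Set.mem_preimage, hp']; exact hx
    · rw [← key s, sub_add_cancel, hp']
  · rintro ⟨⟨ρ, z⟩, ⟨s, hs⟩, rfl⟩
    exact ⟨_, hs, key s ρ z⟩

variable [MeasurableSpace Z] [BorelSpace Z]

theorem main (n : ℕ) (μ : Measure Z) [μ.IsAddHaarMeasure]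
    (u ν : E n) (ι : Z →ₗᵢ[ℝ] E n) (hfin : Module.finrank ℝ Z + 2 = n) (hu : ‖u‖ = 1)
    (hν : ‖ν‖ = 1) (huν : inner ℝ u ν = 0) (hu' : ∀ z, inner ℝ u (ι z) = 0)
    (hν' : ∀ z, inner ℝ ν (ι z) = 0) (K L : Set (E n)) (hK : IsCompact K) (hL : IsCompact L)
    (hKf : Full K) (hdata : SameData K L)
    (t : ℝ) (f : (ℝ × Z) →L[ℝ] ℝ) (k : ℝ) :
      ∫ p in shadow t (coord u ν ι ⁻¹' K), (f p + k) ∂((volume : Measure ℝ).prod μ) =
        ∫ p in shadow t (coord u ν ι ⁻¹' L), (f p + k) ∂((volume : Measure ℝ).prod μ) := by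
  have hbij := coord_bijective (ι := ι) hfin hu hν huν hu' hν'
  -- the coordinates as a homeomorphism
  let e : (ℝ × ℝ × Z) ≃ₗ[ℝ] E n := LinearEquiv.ofBijective (coordL u ν ι) hbij
  let eL : (ℝ × ℝ × Z) ≃L[ℝ] E n := e.toContinuousLinearEquiv
  have heL : ∀ p, eL p = coord u ν ι p := fun p => rfl
  have hcompact : ∀ X : Set (E n), IsCompact X → IsCompact (coord u ν ι ⁻¹' X) := by
    intro X hX
    have : coord u ν ι ⁻¹' X = eL.symm '' X := by
      ext p
      constructor
      · intro hp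
        exact ⟨coord u ν ι p, hp, by rw [← heL, eL.symm_apply_apply]⟩
      · rintro ⟨x, hx, rfl⟩
        simp only [Set.mem_preimage, ← heL, eL.apply_symm_apply]
        exact hx
    rw [this]
    exact hX.image eL.symm.continuous
  have hshc : ∀ X : Set (E n), IsCompact X → IsCompact (shadow t (coord u ν ι ⁻¹' X)) := by
    intro X hX
    have : shadow t (coord u ν ι ⁻¹' X) =
        (fun p : ℝ × ℝ × Z => (p.2.1 - t * p.1, p.2.2)) '' (coord u ν ι ⁻¹' X) := by
      ext q
      constructor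
      · rintro ⟨s, hs⟩
        exact ⟨_, hs, by simp⟩
      · rintro ⟨p, hp, rfl⟩
        exact ⟨p.1, by simpa using hp⟩
    rw [this]
    exact (hcompact X hX).image (by fun_prop)
  -- the direction
  have hw0 : u + t • ν ≠ 0 := by
    intro h
    have := congrArg (fun x => inner ℝ u x) h
    simp only [inner_add_right, inner_smul_right, huν, real_inner_self_eq_norm_sq, hu,
      inner_zero_right, mul_zero, add_zero] at this
    norm_num at this
  obtain ⟨d, hd⟩ : ∃ d : ℝ, d = ‖u + t • ν‖⁻¹ := ⟨_, rfl⟩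
  have hd0 : d ≠ 0 := by rw [hd]; exact inv_ne_zero (norm_ne_zero_iff.2 hw0)
  obtain ⟨w, hw⟩ : ∃ w : E n, w = d • (u + t • ν) := ⟨_, rfl⟩
  have hw1 : ‖w‖ = 1 := by
    rw [hw, norm_smul, hd, norm_inv, norm_norm, inv_mul_cancel₀ (norm_ne_zero_iff.2 hw0)]
  have himg := fun X => proj_image (ι := ι) hd0 hw hw1 hbij.2 X
  have hinj := shadow_injective (ι := ι) hd0 hw hu hν huν hu' hν'
  obtain ⟨κ, hκ, hmeas⟩ := haar_image ((volume : Measure ℝ).prod μ) (shadowL w ν ι) hinj
    (by simp only [Module.finrank_prod, Module.finrank_self]; omega)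
  obtain ⟨A, hA⟩ : ∃ A : (ℝ × Z) →ₗ[ℝ] E n, A = shadowL w ν ι := ⟨_, rfl⟩
  rw [← hA] at himg hinj hmeas
  have hAc : Continuous A := LinearMap.continuous_of_finiteDimensional A
  have hAe : MeasurableEmbedding A :=
    (LinearMap.isClosedEmbedding_of_injective (LinearMap.ker_eq_bot.2 hinj)).measurableEmbedding
  obtain ⟨H, hH⟩ : ∃ H : Measure (E n), H = Measure.hausdorffMeasure ((n : ℝ) - 1) := ⟨_, rfl⟩
  rw [← hH] at hmeas
  -- measure of images
  have hms : ∀ S : Set (ℝ × Z), MeasurableSet S →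
      H (A '' S) = κ * ((volume : Measure ℝ).prod μ) S := by
    intro S hS
    have h1 : H (A '' S) = (H.restrict (Set.range A)) (A '' S) := by
      rw [Measure.restrict_apply (hAe.measurableSet_image.2 hS),
        Set.inter_eq_left.2 (Set.image_subset_range _ _)]
    rw [h1, hmeas, Measure.smul_apply, hAe.map_apply, Set.preimage_image_eq _ hinj]
    rfl
  have hint : ∀ S : Set (ℝ × Z), MeasurableSet S →
      ∫ x in A '' S, x ∂H = (κ : ℝ) • ∫ p in S, A p ∂((volume : Measure ℝ).prod μ) := by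
    intro S hS
    have h1 : H.restrict (A '' S) = (H.restrict (Set.range A)).restrict (A '' S) := by
      rw [Measure.restrict_restrict (hAe.measurableSet_image.2 hS),
        Set.inter_eq_left.2 (Set.image_subset_range _ _)]
    rw [h1, hmeas, Measure.restrict_smul, integral_smul_nnreal_measure,
      hAe.setIntegral_map, Set.preimage_image_eq _ hinj]
    rfl
  -- the data
  obtain ⟨hb, hc⟩ := hdata w hw1
  have hSK := (hshc K hK).measurableSet
  have hSL := (hshc L hL).measurableSet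
  obtain ⟨V, hV⟩ : ∃ V : Measure (ℝ × Z), V = (volume : Measure ℝ).prod μ := ⟨_, rfl⟩
  have hVc : ∀ X : Set (E n), IsCompact X → V (shadow t (coord u ν ι ⁻¹' X)) < ⊤ := by
    intro X hX
    rw [hV]
    exact (hshc X hX).measure_lt_top
  have hbK : brightness K w = κ * V (shadow t (coord u ν ι ⁻¹' K)) := by
    unfold brightness
    rw [himg K, ← hH, hms _ hSK, hV]
  have hbL : brightness L w = κ * V (shadow t (coord u ν ι ⁻¹' L)) := by
    unfold brightness
    rw [himg L, ← hH, hms _ hSL, hV]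
  have hκ' : (κ : ENNReal) ≠ 0 := by simpa using hκ
  have hVeq : V (shadow t (coord u ν ι ⁻¹' K)) = V (shadow t (coord u ν ι ⁻¹' L)) := by
    rw [hbK, hbL] at hb
    exact (ENNReal.mul_right_inj hκ' ENNReal.coe_ne_top).1 hb
  -- positivity
  have hVpos : V (shadow t (coord u ν ι ⁻¹' K)) ≠ 0 := by
    obtain ⟨x, hx⟩ := hKf
    obtain ⟨⟨s, r, z⟩, hp⟩ := hbij.2 x
    have hp' : coord u ν ι (s, r, z) = x := hp
    have hcc : Continuous (fun q : ℝ × Z => coord u ν ι (s, q.1 + t * s, q.2)) := by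
      have : (fun q : ℝ × Z => coord u ν ι (s, q.1 + t * s, q.2)) =
          fun q : ℝ × Z => eL (s, q.1 + t * s, q.2) := rfl
      rw [this]
      fun_prop
    have hopen : IsOpen ((fun q : ℝ × Z => coord u ν ι (s, q.1 + t * s, q.2)) ⁻¹'
        interior K) := isOpen_interior.preimage hcc
    have hne : ((fun q : ℝ × Z => coord u ν ι (s, q.1 + t * s, q.2)) ⁻¹'
        interior K).Nonempty := ⟨(r - t * s, z), by
          simp only [Set.mem_preimage, sub_add_cancel, hp']; exact hx⟩
    have hpos : 0 < V ((fun q : ℝ × Z => coord u ν ι (s, q.1 + t * s, q.2)) ⁻¹' interior K) := by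
      rw [hV]
      exact hopen.measure_pos _ hne
    refine (hpos.trans_le (measure_mono ?_)).ne'
    intro q hq
    have hq' : coord u ν ι (s, q.1 + t * s, q.2) ∈ interior K := hq
    exact ⟨s, (interior_subset hq' : coord u ν ι (s, q.1 + t * s, q.2) ∈ K)⟩
  have hb0 : (brightness K w).toReal ≠ 0 := by
    rw [hbK, ENNReal.toReal_mul]
    refine mul_ne_zero ?_ (ENNReal.toReal_pos hVpos (hVc K hK).ne).ne'
    simpa using hκ
  have hI : ∫ p in shadow t (coord u ν ι ⁻¹' K), A p ∂V =
      ∫ p in shadow t (coord u ν ι ⁻¹' L), A p ∂V := by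
    unfold centroid at hc
    rw [← hb] at hc
    have h1 := smul_right_injective (E n) (inv_ne_zero hb0) hc
    rw [himg K, himg L, ← hH, hint _ hSK, hint _ hSL, ← hV] at h1
    have hκr : (κ : ℝ) ≠ 0 := by simpa using hκ
    exact smul_right_injective (E n) hκr h1
  -- left inverse
  obtain ⟨G, hG⟩ := LinearMap.exists_leftInverse_of_injective A (LinearMap.ker_eq_bot.2 hinj)
  have hGA : ∀ p, G (A p) = p := fun p => by
    have := LinearMap.congr_fun hG p
    simpa using this
  let Gc : E n →L[ℝ] (ℝ × Z) := LinearMap.toContinuousLinearMap G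
  let F : E n →L[ℝ] ℝ := f.comp Gc
  have hF : ∀ p, F (A p) = f p := fun p => by
    show f (G (A p)) = f p
    rw [hGA]
  have hfin' : ∀ X : Set (E n), IsCompact X →
      ∫ p in shadow t (coord u ν ι ⁻¹' X), (f p + k) ∂V =
        F (∫ p in shadow t (coord u ν ι ⁻¹' X), A p ∂V) +
          V.real (shadow t (coord u ν ι ⁻¹' X)) * k := by
    intro X hX
    have hcX := hshc X hX
    have i1 : IntegrableOn (fun p => A p) (shadow t (coord u ν ι ⁻¹' X)) V := by
      rw [hV]
      exact hAc.continuousOn.integrableOn_compact hcX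
    have i2 : IntegrableOn (fun p => f p) (shadow t (coord u ν ι ⁻¹' X)) V := by
      rw [hV]
      exact f.continuous.continuousOn.integrableOn_compact hcX
    have i3 : IntegrableOn (fun _ : ℝ × Z => k) (shadow t (coord u ν ι ⁻¹' X)) V :=
      integrableOn_const (hVc X hX).ne
    rw [← F.integral_comp_comm i1, integral_add i2 i3, setIntegral_const, smul_eq_mul]
    simp_rw [hF]
  rw [← hV, hfin' K hK, hfin' L hL, hI, Measure.real, Measure.real, hVeq]

end PV.TR

namespace PV

/-- TR. -/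
theorem tr : TRStmt := by
  intro n Z _ _ _ _ _ μ _ u ν ι hfin hu hν huν hu' hν' K L hK hL hKf _ hdata t f k
  exact TR.main n μ u ν ι hfin hu hν huν hu' hν' K L hK hL hKf hdata t f k

end PV
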