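import Pool.Agent.Helper65_PV.KC
import Pool.Agent.Helper65_PV.TR
import Pool.Agent.Helper18_PV.KE
import Pool.Agent.Helper18_PV.CO
import Pool.Agent.Helper20_PV.Ud
import Pool.Agent.Helper20_PV.Mo
import Pool.Agent.Helper42_PV.Sc
import Pool.Agent.Helper42_PV.Bl
import Pool.Agent.Helper48_PV.Fin
import Pool.Agent.Helper69_PV.Opens
import Pool.Agent.Helper76_PV.Fo
import Pool.Agent.Helper76_PV.Cs
import Pool.Agent.Helper81_PV.Cv

/-!
Squad PV: assembly. Most convex bodies are determined by their projection volumes and projection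
centroids.
-/

set_option autoImplicit false

namespace PV

theorem ke : KEStmt := H18.ke kc tr

theorem co : COStmt := H18co.co H81.cv

theorem complete (n : ℕ) : CompleteSpace (ConvexBody (E n)) := H76.cs n

theorem main : MainStmt :=
  H48.fin (H69.uo co H42.bl H76.fo) (H69.doo co H42.bl H76.fo) (H20.ud ke H42.bl H42.sc) H76.cs H20.mo

end PV
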