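import Pool.Agent.Helper65_PV.KC3

/-!
Squad PV, module KC: the key lemma in coordinates.
-/

set_option autoImplicit false

open MeasureTheory Metric Set Filter Topology

namespace PV.KC

variable {Z : Type} [NormedAddCommGroup Z] [InnerProductSpace ℝ Z]

/-- Pointwise: the negative part of the difference to the expected lower bound tends to `0`. -/
lemma pointwise {C : Set (ℝ × ℝ × Z)} (hC : IsCompact C) (hCc : Convex ℝ C)
    (f : (ℝ × Z) →L[ℝ] ℝ) (k η c e R : ℝ) (hη : 0 < η) (he : 0 < e) (s₀ : ℝ) (z₀ : Z)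
    (hR : ∀ p ∈ C, |p.1| ≤ R)
    (hle : ∀ p ∈ C, p.2.1 ≤ c)
    (hseg : ∀ (s₁ s₂ r : ℝ) (z : Z), (s₁, r, z) ∈ C → (s₂, r, z) ∈ C → s₁ ≠ s₂ →
      (∃ e : ℝ, 0 < e ∧ ((s₁ + s₂) / 2, r - e, z) ∈ C) ∧
      (r < c → ∃ e : ℝ, 0 < e ∧ ((s₁ + s₂) / 2, r + e, z) ∈ C))
    (hF : ∀ (s : ℝ) (z : Z), |s - s₀| < e → dist z z₀ < e → (s, c, z) ∈ C)
    (hpos : ∀ (s : ℝ) (z : Z), (s, c, z) ∈ C → η ≤ f (c, z) + k)
    (τ : ℕ → ℝ) (hτ0 : ∀ j, 0 < τ j) (hτ : Tendsto τ atTop (𝓝 0)) (z : Z) :
    Tendsto (fun j => min (q C f k (τ j) z / τ j -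
      (ball z₀ e).indicator (fun _ => η * e) z) 0) atTop (𝓝 0) := by
  by_cases hne : (slice C z).Nonempty
  · have hS := slice_compact hC z
    have hRz := slice_bound hR z
    -- the bottom point is unique
    have hBu : Tendsto (fun j => (T (refl (slice C z)) (τ j) + T (refl (slice C z)) (-τ j) -
        2 * T (refl (slice C z)) 0) / τ j) atTop (𝓝 0) := by
      refine T_unique (refl_compact hS) (refl_nonempty hne) ?_ τ hτ0 hτ
      intro s₁ s₂ h1 h2
      by_contra hne12
      obtain ⟨⟨d, hd, hmem⟩, _⟩ := hseg s₁ s₂ _ z h1 h2 hne12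
      have hmem' : ((s₁ + s₂) / 2, T (refl (slice C z)) 0 + d) ∈ refl (slice C z) := by
        show ((s₁ + s₂) / 2, -(T (refl (slice C z)) 0 + d), z) ∈ C
        convert hmem using 3
        ring
      have := le_T (refl_compact hS) 0 hmem'
      simp only at this
      linarith
    -- the remainder
    obtain ⟨r, hr⟩ : ∃ r : ℕ → ℝ, r = fun j =>
        (f (B (slice C z) 0, z) + k) * ((T (refl (slice C z)) (τ j) + T (refl (slice C z)) (-τ j) -
          2 * T (refl (slice C z)) 0) / τ j) +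
        f (1, 0) / 2 * (((T (slice C z) (τ j) - T (slice C z) 0) ^ 2 +
          (T (slice C z) (-τ j) - T (slice C z) 0) ^ 2 -
          (B (slice C z) (τ j) - B (slice C z) 0) ^ 2 -
          (B (slice C z) (-τ j) - B (slice C z) 0) ^ 2) / τ j) := ⟨_, rfl⟩
    have hsqlim : ∀ x : ℕ → ℝ, (∀ j, |x j| ≤ R * |τ j|) →
        Tendsto (fun j => x j ^ 2 / τ j) atTop (𝓝 0) := by
      intro x hx
      have hup : Tendsto (fun j => R ^ 2 * τ j) atTop (𝓝 0) := by
        simpa using hτ.const_mul (R ^ 2)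
      refine squeeze_zero (fun j => div_nonneg (sq_nonneg _) (hτ0 j).le) (fun j => ?_) hup
      rw [div_le_iff₀ (hτ0 j)]
      have := sq_bound (hx j)
      nlinarith
    have hr0 : Tendsto r atTop (𝓝 0) := by
      have l1 := hsqlim (fun j => T (slice C z) (τ j) - T (slice C z) 0)
        (fun j => T_sub_le hS hne hRz (τ j))
      have l2 := hsqlim (fun j => T (slice C z) (-τ j) - T (slice C z) 0)
        (fun j => by simpa [abs_neg] using T_sub_le hS hne hRz (-τ j))
      have l3 := hsqlim (fun j => B (slice C z) (τ j) - B (slice C z) 0)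
        (fun j => B_sub_le hS hne hRz (τ j))
      have l4 := hsqlim (fun j => B (slice C z) (-τ j) - B (slice C z) 0)
        (fun j => by simpa [abs_neg] using B_sub_le hS hne hRz (-τ j))
      have l5 := (((l1.add l2).sub l3).sub l4).const_mul (f (1, 0) / 2)
      have l6 := hBu.const_mul (f (B (slice C z) 0, z) + k)
      have l7 := l6.add l5
      simp only [mul_zero, add_zero, sub_zero] at l7
      rw [hr]
      refine l7.congr (fun j => ?_)
      ring
    have hq : ∀ j, q C f k (τ j) z / τ j = (f (T (slice C z) 0, z) + k) *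
        ((T (slice C z) (τ j) + T (slice C z) (-τ j) - 2 * T (slice C z) 0) / τ j) + r j := by
      intro j
      have hτj := (hτ0 j).ne'
      rw [hr, second_eq hC hCc f k (τ j) z hne]
      have hB : B (slice C z) (τ j) + B (slice C z) (-τ j) - 2 * B (slice C z) 0 =
          -(T (refl (slice C z)) (τ j) + T (refl (slice C z)) (-τ j) -
          2 * T (refl (slice C z)) 0) := by
        unfold B
        rw [neg_zero, neg_neg]
        ring
      rw [hB]
      ring
    by_cases htop : T (slice C z) 0 = c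
    · -- the top face lies in the cut
      have hpos' : η ≤ f (T (slice C z) 0, z) + k := by
        obtain ⟨p, hp, h1, _⟩ := T_exists hS hne 0
        rw [htop]
        refine hpos p.1 z ?_
        have : p.2 = c := by rw [← htop, ← h1]; ring
        rw [← this]; exact hp
      have hlow : ∀ j, (ball z₀ e).indicator (fun _ => η * e) z ≤ (f (T (slice C z) 0, z) + k) *
        ((T (slice C z) (τ j) + T (slice C z) (-τ j) - 2 * T (slice C z) 0) / τ j) := by
        intro j
        have hnn := T_second_nonneg hS hne (τ j)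
        by_cases hz : z ∈ ball z₀ e
        · rw [indicator_of_mem hz]
          have m1 : (s₀ - e / 2, c) ∈ slice C z := hF _ z (by
            rw [show s₀ - e / 2 - s₀ = -(e / 2) by ring, abs_neg, abs_of_pos (by linarith)]
            linarith) hz
          have m2 : (s₀ + e / 2, c) ∈ slice C z := hF _ z (by
            rw [show s₀ + e / 2 - s₀ = e / 2 by ring, abs_of_pos (by linarith)]
            linarith) hz
          have h3 := T_second_ge hS (τ j) m1 m2 htop.symm
          have h4 : e ≤ (T (slice C z) (τ j) + T (slice C z) (-τ j) - 2 * T (slice C z) 0) / τ j := by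
            rw [le_div_iff₀ (hτ0 j)]
            calc e * τ j = τ j * (s₀ + e / 2 - (s₀ - e / 2)) := by ring
              _ ≤ _ := h3
          exact mul_le_mul hpos' h4 he.le (hη.le.trans hpos')
        · rw [indicator_of_notMem hz]
          exact mul_nonneg (hη.le.trans hpos') (div_nonneg hnn (hτ0 j).le)
      have hmin : Tendsto (fun j => min (r j) 0) atTop (𝓝 0) := by
        simpa using hr0.min (tendsto_const_nhds (x := (0 : ℝ)))
      refine tendsto_of_tendsto_of_tendsto_of_le_of_le hmin tendsto_const_nhds ?_ ?_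
      · intro j
        dsimp only
        refine min_le_min ?_ le_rfl
        rw [hq j]
        have := hlow j
        linarith
      · intro j
        exact min_le_right _ _
    · -- unique top point, below the cut
      have hlt : T (slice C z) 0 < c := by
        refine lt_of_le_of_ne ?_ htop
        obtain ⟨p, hp, h1, _⟩ := T_exists hS hne 0
        have := hle _ hp
        simp only at this
        rw [← h1]; linarith
      have hzb : z ∉ ball z₀ e := by
        intro hz
        have m1 : (s₀, c) ∈ slice C z := hF _ z (by simpa using he) hz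
        have := le_T hS 0 m1
        simp only at this
        linarith
      have hTu : Tendsto (fun j => (T (slice C z) (τ j) + T (slice C z) (-τ j) -
        2 * T (slice C z) 0) / τ j) atTop (𝓝 0) := by
        refine T_unique hS hne ?_ τ hτ0 hτ
        intro s₁ s₂ h1 h2
        by_contra hne12
        obtain ⟨_, h3⟩ := hseg s₁ s₂ _ z h1 h2 hne12
        obtain ⟨d, hd, hmem⟩ := h3 hlt
        have := le_T hS 0 (p := ((s₁ + s₂) / 2, T (slice C z) 0 + d)) hmem
        simp only at this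
        linarith
      have hlim : Tendsto (fun j => q C f k (τ j) z / τ j) atTop (𝓝 0) := by
        have := (hTu.const_mul (f (T (slice C z) 0, z) + k)).add hr0
        simp only [mul_zero, add_zero] at this
        exact this.congr (fun j => (hq j).symm)
      rw [indicator_of_notMem hzb]
      simp only [sub_zero]
      simpa using hlim.min (tendsto_const_nhds (x := (0 : ℝ)))
  · have hzb : z ∉ ball z₀ e := by
      intro hz
      exact hne ⟨(s₀, c), hF _ z (by simpa using he) hz⟩
    rw [indicator_of_notMem hzb]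
    have : ∀ j, q C f k (τ j) z = 0 := fun j => q_empty f k (τ j) z hne
    simp [this]

variable [FiniteDimensional ℝ Z] [MeasurableSpace Z] [BorelSpace Z]

theorem main (μ : Measure Z) [μ.IsAddHaarMeasure]
    (C D : Set (ℝ × ℝ × Z)) (hC : IsCompact C) (hCc : Convex ℝ C) (hD : IsCompact D)
    (hDc : Convex ℝ D) (c : ℝ) (hle : ∀ p ∈ C, p.2.1 ≤ c)
    (hseg : ∀ (s₁ s₂ r : ℝ) (z : Z), (s₁, r, z) ∈ C → (s₂, r, z) ∈ C → s₁ ≠ s₂ →
      (∃ e : ℝ, 0 < e ∧ ((s₁ + s₂) / 2, r - e, z) ∈ C) ∧
      (r < c → ∃ e : ℝ, 0 < e ∧ ((s₁ + s₂) / 2, r + e, z) ∈ C))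
    (hF : ∃ (s₀ : ℝ) (z₀ : Z) (e : ℝ), 0 < e ∧
      ∀ (s : ℝ) (z : Z), |s - s₀| < e → dist z z₀ < e → (s, c, z) ∈ C)
    (hdata : ∀ (t : ℝ) (f : (ℝ × Z) →L[ℝ] ℝ) (k : ℝ),
      ∫ p in shadow t C, (f p + k) ∂((volume : Measure ℝ).prod μ) =
        ∫ p in shadow t D, (f p + k) ∂((volume : Measure ℝ).prod μ)) :
    ∃ (z : Z) (s s' : ℝ), (s, c, z) ∈ C ∧ (s', c, z) ∈ D := by
  obtain ⟨s₀, z₀, e, he, hF⟩ := hF
  by_contra hcon
  push Not at hcon
  -- separation
  obtain ⟨F0, hF0⟩ : ∃ F0 : Set (ℝ × Z), F0 = shadow 0 C ∩ {p | p.1 = c} := ⟨_, rfl⟩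
  have hF0c : IsCompact F0 := by
    rw [hF0]
    exact (shadow_compact hC 0).inter_right (isClosed_eq continuous_fst continuous_const)
  have hF0v : Convex ℝ F0 := by
    rw [hF0]
    refine (shadow_convex hCc 0).inter ?_
    intro p hp p' hp' a b ha hb hab
    simp only [Set.mem_ofPred_eq] at hp hp' ⊢
    simp only [Prod.fst_add, Prod.smul_fst, smul_eq_mul, hp, hp']
    rw [← add_mul, hab, one_mul]
  have hdisj : Disjoint (shadow 0 D) F0 := by
    rw [Set.disjoint_left]
    rintro ⟨r, z⟩ ⟨s', hs'⟩ hp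
    rw [hF0] at hp
    obtain ⟨⟨s, hs⟩, hr⟩ := hp
    simp only [Set.mem_ofPred_eq] at hr
    subst hr
    simp only [zero_mul, add_zero] at hs hs'
    exact hcon z s s' hs hs'
  obtain ⟨f, u, v, h1, h2, h3⟩ := geometric_hahn_banach_compact_closed
    (shadow_convex hDc 0) (shadow_compact hD 0) hF0v hF0c.isClosed hdisj
  obtain ⟨η, hη⟩ : ∃ η : ℝ, η = v - u := ⟨_, rfl⟩
  have hη0 : 0 < η := by rw [hη]; linarith
  obtain ⟨k, hk⟩ : ∃ k : ℝ, k = -u := ⟨_, rfl⟩
  have hneg : ∀ p ∈ shadow 0 D, f p + k ≤ 0 := by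
    intro p hp
    have := h1 p hp
    rw [hk]; linarith
  have hpos : ∀ (s : ℝ) (z : Z), (s, c, z) ∈ C → η ≤ f (c, z) + k := by
    intro s z hs
    have hmem : ((c, z) : ℝ × Z) ∈ F0 := by
      rw [hF0]
      exact ⟨⟨s, by simpa using hs⟩, rfl⟩
    have := h3 _ hmem
    rw [hη, hk]; linarith
  -- constants
  obtain ⟨R, hR0, hRC, hRD⟩ : ∃ R : ℝ, 0 ≤ R ∧ (∀ p ∈ C, |p.1| ≤ R) ∧ (∀ p ∈ D, |p.1| ≤ R) := by
    obtain ⟨R1, hR1⟩ := hC.isBounded.exists_norm_le
    obtain ⟨R2, hR2⟩ := hD.isBounded.exists_norm_le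
    refine ⟨max 0 (max R1 R2), le_max_left _ _, fun p hp => ?_, fun p hp => ?_⟩
    · exact ((norm_fst_le p).trans (hR1 p hp)).trans ((le_max_left _ _).trans (le_max_right _ _))
    · exact ((norm_fst_le p).trans (hR2 p hp)).trans ((le_max_right _ _).trans (le_max_right _ _))
  obtain ⟨L, hL⟩ : ∃ L : ℝ, ∀ p ∈ shadow 0 C, |f p + k| ≤ L := by
    obtain ⟨L, hL⟩ := ((shadow_compact hC 0).image_of_continuousOn
      (f := fun p : ℝ × Z => f p + k) (by fun_prop)).isBounded.exists_norm_le
    exact ⟨L, fun p hp => hL _ ⟨p, hp, rfl⟩⟩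
  obtain ⟨CZ, hCZ⟩ : ∃ CZ : Set Z, CZ = (fun p : ℝ × ℝ × Z => p.2.2) '' C := ⟨_, rfl⟩
  obtain ⟨DZ, hDZ⟩ : ∃ DZ : Set Z, DZ = (fun p : ℝ × ℝ × Z => p.2.2) '' D := ⟨_, rfl⟩
  have hCZc : IsCompact CZ := by rw [hCZ]; exact hC.image (by fun_prop)
  have hDZc : IsCompact DZ := by rw [hDZ]; exact hD.image (by fun_prop)
  obtain ⟨τ, hτ⟩ : ∃ τ : ℕ → ℝ, τ = fun j : ℕ => 1 / ((j : ℝ) + 1) := ⟨_, rfl⟩
  have hτ0 : ∀ j, 0 < τ j := fun j => by rw [hτ]; positivity
  have hτ1 : ∀ j, τ j ≤ 1 := fun j => by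
    rw [hτ]; simp only
    rw [div_le_one (by positivity)]
    have : (0 : ℝ) ≤ j := Nat.cast_nonneg j
    linarith
  have hτl : Tendsto τ atTop (𝓝 0) := by rw [hτ]; exact tendsto_one_div_add_atTop_nhds_zero_nat
  -- integrability
  have hqint : ∀ X : Set (ℝ × ℝ × Z), IsCompact X → ∀ t : ℝ, Integrable (q X f k t) μ ∧
      ∫ z, q X f k t z ∂μ = (∫ p in shadow t X, (f p + k) ∂((volume : Measure ℝ).prod μ)) +
        (∫ p in shadow (-t) X, (f p + k) ∂((volume : Measure ℝ).prod μ)) -
        2 * (∫ p in shadow 0 X, (f p + k) ∂((volume : Measure ℝ).prod μ)) := by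
    intro X hX t
    obtain ⟨a1, b1⟩ := G_eq μ hX f k t
    obtain ⟨a2, b2⟩ := G_eq μ hX f k (-t)
    obtain ⟨a3, b3⟩ := G_eq μ hX f k 0
    refine ⟨(b1.add b2).sub (b3.const_mul 2), ?_⟩
    rw [a1, a2, a3]
    unfold q
    have e1 : ∫ z, (g X f k t z + g X f k (-t) z - 2 * g X f k 0 z) ∂μ =
        ∫ z, (g X f k t z + g X f k (-t) z) ∂μ - ∫ z, 2 * g X f k 0 z ∂μ :=
      integral_sub (b1.add b2) (b3.const_mul 2)
    rw [e1, integral_add b1 b2, integral_const_mul]
  have hCD : ∀ j, ∫ z, q C f k (τ j) z ∂μ ≤ 2 * |f (1, 0)| * R ^ 2 * τ j ^ 2 * μ.real DZ := by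
    intro j
    have e1 := (hqint C hC (τ j)).2
    have e2 := (hqint D hD (τ j)).2
    have e3 : ∫ z, q C f k (τ j) z ∂μ = ∫ z, q D f k (τ j) z ∂μ := by
      rw [e1, e2, hdata (τ j) f k, hdata (-τ j) f k, hdata 0 f k]
    rw [e3]
    have hmono : ∫ z, q D f k (τ j) z ∂μ ≤ ∫ z, DZ.indicator
        (fun _ => 2 * |f (1, 0)| * R ^ 2 * τ j ^ 2) z ∂μ := by
      refine integral_mono (hqint D hD (τ j)).1 ?_ (fun z => ?_)
      · rw [integrable_indicator_iff hDZc.measurableSet]
        exact integrableOn_const hDZc.measure_lt_top.ne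
      · rw [hDZ]; exact second_D hD hDc f k (τ j) hRD hneg z
    refine hmono.trans (le_of_eq ?_)
    rw [integral_indicator hDZc.measurableSet, setIntegral_const, smul_eq_mul, mul_comm]
  -- the negative part
  obtain ⟨m, hm⟩ : ∃ m : ℕ → Z → ℝ, m = fun j z => min (q C f k (τ j) z / τ j -
      (ball z₀ e).indicator (fun _ => η * e) z) 0 := ⟨_, rfl⟩
  have hbint : Integrable ((ball z₀ e).indicator (fun _ => η * e)) μ := by
    rw [integrable_indicator_iff measurableSet_ball]
    exact integrableOn_const measure_ball_lt_top.ne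
  have hmint : ∀ j, Integrable (m j) μ := by
    intro j
    have := (((hqint C hC (τ j)).1.div_const (τ j)).sub hbint).inf (integrable_zero Z ℝ μ)
    rw [hm]
    exact this
  have hballCZ : ball z₀ e ⊆ CZ := by
    intro z hz
    rw [hCZ]
    exact ⟨(s₀, c, z), hF _ z (by simpa using he) hz, rfl⟩
  have hmlim : Tendsto (fun j => ∫ z, m j z ∂μ) atTop (𝓝 (∫ _z : Z, (0 : ℝ) ∂μ)) := by
    refine tendsto_integral_of_dominated_convergence
      (CZ.indicator (fun _ => 4 * L * R + 2 * |f (1, 0)| * R ^ 2 + η * e))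
      (fun j => (hmint j).aestronglyMeasurable) ?_ ?_ ?_
    · rw [integrable_indicator_iff hCZc.measurableSet]
      exact integrableOn_const hCZc.measure_lt_top.ne
    · intro j
      refine Filter.Eventually.of_forall (fun z => ?_)
      rw [hm]
      dsimp only
      have habs : ∀ x : ℝ, ‖min x 0‖ ≤ |x| := by
        intro x
        rcases le_total x 0 with h | h
        · rw [min_eq_left h]; exact le_rfl
        · rw [min_eq_right h]; simp
      refine (habs _).trans ?_
      by_cases hne : (slice C z).Nonempty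
      · have hz : z ∈ CZ := by
          obtain ⟨p, hp⟩ := hne
          rw [hCZ]
          exact ⟨(p.1, p.2, z), hp, rfl⟩
        rw [indicator_of_mem hz]
        have b1 := second_abs hC hCc f k (τ j) hRC hR0 hL z hne (hτ0 j) (hτ1 j)
        have b2 : |(ball z₀ e).indicator (fun _ => η * e) z| ≤ η * e := by
          by_cases hzb : z ∈ ball z₀ e
          · rw [indicator_of_mem hzb, abs_of_pos (by positivity)]
          · rw [indicator_of_notMem hzb]; simp; positivity
        exact (abs_sub _ _).trans (by linarith)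
      · have hz : z ∉ CZ := by
          rw [hCZ]
          rintro ⟨p, hp, rfl⟩
          exact hne ⟨(p.1, p.2.1), hp⟩
        have hzb : z ∉ ball z₀ e := fun h => hz (hballCZ h)
        rw [indicator_of_notMem hz, indicator_of_notMem hzb, q_empty f k (τ j) z hne]
        simp
    · refine Filter.Eventually.of_forall (fun z => ?_)
      rw [hm]
      exact pointwise hC hCc f k η c e R hη0 he s₀ z₀ hRC hle hseg hF hpos τ hτ0 hτl z
  rw [integral_zero] at hmlim
  have hkey : ∀ j, η * e * μ.real (ball z₀ e) + ∫ z, m j z ∂μ ≤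
      2 * |f (1, 0)| * R ^ 2 * μ.real DZ * τ j := by
    intro j
    have hlow : ∫ z, ((ball z₀ e).indicator (fun _ => η * e) z + m j z) ∂μ ≤
        ∫ z, q C f k (τ j) z / τ j ∂μ := by
      refine integral_mono (hbint.add (hmint j)) ((hqint C hC (τ j)).1.div_const _) (fun z => ?_)
      rw [hm]
      dsimp only
      have := min_le_left (q C f k (τ j) z / τ j -
        (ball z₀ e).indicator (fun _ => η * e) z) 0
      linarith
    rw [integral_add hbint (hmint j), integral_indicator measurableSet_ball, setIntegral_const,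
      smul_eq_mul, integral_div] at hlow
    have h5 : (∫ z, q C f k (τ j) z ∂μ) / τ j ≤ 2 * |f (1, 0)| * R ^ 2 * μ.real DZ * τ j := by
      rw [div_le_iff₀ (hτ0 j)]
      calc ∫ z, q C f k (τ j) z ∂μ ≤ 2 * |f (1, 0)| * R ^ 2 * τ j ^ 2 * μ.real DZ := hCD j
        _ = 2 * |f (1, 0)| * R ^ 2 * μ.real DZ * τ j * τ j := by ring
    calc η * e * μ.real (ball z₀ e) + ∫ z, m j z ∂μ
        = μ.real (ball z₀ e) * (η * e) + ∫ z, m j z ∂μ := by ring
      _ ≤ _ := hlow
      _ ≤ _ := h5
  have hlimkey : η * e * μ.real (ball z₀ e) + 0 ≤ 2 * |f (1, 0)| * R ^ 2 * μ.real DZ * 0 :=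
    le_of_tendsto_of_tendsto' (tendsto_const_nhds.add hmlim) (hτl.const_mul _) hkey
  have hball : 0 < μ.real (ball z₀ e) :=
    ENNReal.toReal_pos (measure_ball_pos μ z₀ he).ne' measure_ball_lt_top.ne
  have : 0 < η * e * μ.real (ball z₀ e) := by positivity
  linarith

end PV.KC

namespace PV

/-- KC. -/
theorem kc : KCStmt := by
  intro Z _ _ _ _ _ μ _ C D hC hCc hD hDc c hle hseg hF _ hdata
  exact KC.main μ C D hC hCc hD hDc c hle hseg hF hdata

end PV
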