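import Mathlib

/-!
Squad PV, module KC, part 1: planar slices.
-/

set_option autoImplicit false

open MeasureTheory Metric Set Filter Topology

namespace PV.KC

/-- The support function of a planar slice in the directions `(-t, 1)`. -/
noncomputable def T (S : Set (ℝ × ℝ)) (t : ℝ) : ℝ :=
  sSup ((fun q : ℝ × ℝ => q.2 - t * q.1) '' S)

/-- Reflection of a planar slice. -/
def refl (S : Set (ℝ × ℝ)) : Set (ℝ × ℝ) := {q | (q.1, -q.2) ∈ S}

lemma T_exists {S : Set (ℝ × ℝ)} (hS : IsCompact S) (hne : S.Nonempty) (t : ℝ) :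
    ∃ q ∈ S, q.2 - t * q.1 = T S t ∧ ∀ p ∈ S, p.2 - t * p.1 ≤ T S t := by
  have hcont : ContinuousOn (fun q : ℝ × ℝ => q.2 - t * q.1) S := by fun_prop
  obtain ⟨q, hq, hsup⟩ := hS.exists_sSup_image_eq hne hcont
  refine ⟨q, hq, hsup.symm, fun p hp => ?_⟩
  exact le_csSup (hS.image_of_continuousOn hcont).bddAbove ⟨p, hp, rfl⟩

lemma le_T {S : Set (ℝ × ℝ)} (hS : IsCompact S) (t : ℝ) {p : ℝ × ℝ} (hp : p ∈ S) :
    p.2 - t * p.1 ≤ T S t := by
  obtain ⟨q, hq, h1, h2⟩ := T_exists hS ⟨p, hp⟩ t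
  exact h2 p hp

lemma refl_compact {S : Set (ℝ × ℝ)} (hS : IsCompact S) : IsCompact (refl S) := by
  have : refl S = (fun q : ℝ × ℝ => (q.1, -q.2)) '' S := by
    ext q
    constructor
    · intro hq
      exact ⟨(q.1, -q.2), hq, by simp⟩
    · rintro ⟨p, hp, rfl⟩
      simpa [refl] using hp
  rw [this]
  exact hS.image (by fun_prop)

lemma refl_nonempty {S : Set (ℝ × ℝ)} (hS : S.Nonempty) : (refl S).Nonempty := by
  obtain ⟨q, hq⟩ := hS
  exact ⟨(q.1, -q.2), by simpa [refl] using hq⟩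

/-- The lower support function. -/
noncomputable def B (S : Set (ℝ × ℝ)) (t : ℝ) : ℝ := - T (refl S) (-t)

lemma B_exists {S : Set (ℝ × ℝ)} (hS : IsCompact S) (hne : S.Nonempty) (t : ℝ) :
    ∃ q ∈ S, q.2 - t * q.1 = B S t ∧ ∀ p ∈ S, B S t ≤ p.2 - t * p.1 := by
  obtain ⟨q, hq, h1, h2⟩ := T_exists (refl_compact hS) (refl_nonempty hne) (-t)
  refine ⟨(q.1, -q.2), hq, ?_, fun p hp => ?_⟩
  · unfold B; rw [← h1]; ring
  · have := h2 (p.1, -p.2) (by simpa [refl] using hp)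
    unfold B
    simp only at this
    linarith

lemma T_sub_le {S : Set (ℝ × ℝ)} (hS : IsCompact S) (hne : S.Nonempty) {R : ℝ}
    (hR : ∀ q ∈ S, |q.1| ≤ R) (t : ℝ) : |T S t - T S 0| ≤ R * |t| := by
  obtain ⟨q, hq, h1, h2⟩ := T_exists hS hne t
  obtain ⟨p, hp, h3, h4⟩ := T_exists hS hne 0
  have a1 := h2 p hp
  have a2 := h4 q hq
  have b1 := hR q hq
  have b2 := hR p hp
  have c1 : |t * q.1| ≤ R * |t| := by
    rw [abs_mul, mul_comm]; exact mul_le_mul_of_nonneg_right b1 (abs_nonneg _)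
  have c2 : |t * p.1| ≤ R * |t| := by
    rw [abs_mul, mul_comm]; exact mul_le_mul_of_nonneg_right b2 (abs_nonneg _)
  rw [abs_le] at c1 c2 ⊢
  constructor <;> nlinarith

lemma T_second_nonneg {S : Set (ℝ × ℝ)} (hS : IsCompact S) (hne : S.Nonempty) (t : ℝ) :
    0 ≤ T S t + T S (-t) - 2 * T S 0 := by
  obtain ⟨p, hp, h3, h4⟩ := T_exists hS hne 0
  have a1 := le_T hS t hp
  have a2 := le_T hS (-t) hp
  nlinarith

lemma T_second_ge {S : Set (ℝ × ℝ)} (hS : IsCompact S) (t : ℝ) {s₁ s₂ r : ℝ}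
    (h1 : (s₁, r) ∈ S) (h2 : (s₂, r) ∈ S) (hr : r = T S 0) :
    t * (s₂ - s₁) ≤ T S t + T S (-t) - 2 * T S 0 := by
  have a1 := le_T hS t h1
  have a2 := le_T hS (-t) h2
  simp only at a1 a2
  rw [← hr]
  nlinarith

/-- If the top face is a single point, the second difference is `o(t)`. -/
lemma T_unique {S : Set (ℝ × ℝ)} (hS : IsCompact S) (hne : S.Nonempty)
    (huniq : ∀ s₁ s₂ : ℝ, (s₁, T S 0) ∈ S → (s₂, T S 0) ∈ S → s₁ = s₂)
    (τ : ℕ → ℝ) (hpos : ∀ j, 0 < τ j) (hτ : Tendsto τ atTop (𝓝 0)) :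
    Tendsto (fun j => (T S (τ j) + T S (-τ j) - 2 * T S 0) / τ j) atTop (𝓝 0) := by
  obtain ⟨p, hp, h3, h4⟩ := T_exists hS hne 0
  have hp0 : (p.1, T S 0) ∈ S := by
    rw [← h3]; simpa using hp
  obtain ⟨R, hR⟩ : ∃ R : ℝ, ∀ q ∈ S, |q.1| ≤ R := by
    obtain ⟨R, hR⟩ := hS.isBounded.exists_norm_le
    exact ⟨R, fun q hq => (norm_fst_le q).trans (hR q hq)⟩
  have hR0 : 0 ≤ R := (abs_nonneg _).trans (hR p hp)
  rw [Metric.tendsto_atTop]
  intro e he
  -- the part of S away from p.1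
  obtain ⟨Se, hSe⟩ : ∃ Se : Set (ℝ × ℝ), Se = S ∩ {q | e / 4 ≤ |q.1 - p.1|} := ⟨_, rfl⟩
  have hSec : IsCompact Se := by
    rw [hSe]
    refine hS.inter_right ?_
    exact isClosed_le continuous_const (by fun_prop)
  obtain ⟨d, hd, hSd⟩ : ∃ d : ℝ, 0 < d ∧ ∀ q ∈ Se, q.2 ≤ T S 0 - d := by
    by_cases hem : Se.Nonempty
    · obtain ⟨q, hq, hq2⟩ := hSec.exists_isMaxOn hem (f := fun q : ℝ × ℝ => q.2) (by fun_prop)
      have hqS : q ∈ S := by rw [hSe] at hq; exact hq.1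
      have hqe : e / 4 ≤ |q.1 - p.1| := by rw [hSe] at hq; exact hq.2
      have hlt : q.2 < T S 0 := by
        refine lt_of_le_of_ne ?_ ?_
        · have := h4 q hqS; simpa using this
        · intro heq
          have : q.1 = p.1 := huniq _ _ (by rw [← heq]; exact hqS) hp0
          rw [this] at hqe
          simp at hqe
          linarith
      refine ⟨T S 0 - q.2, by linarith, fun q' hq' => ?_⟩
      have := hq2 hq'
      simp only [Set.mem_setOf_eq] at this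
      linarith
    · refine ⟨1, one_pos, fun q hq => absurd ⟨q, hq⟩ hem⟩
  have hnear : ∀ t : ℝ, 2 * R * |t| < d → ∀ q ∈ S, q.2 - t * q.1 = T S t → |q.1 - p.1| < e / 4 := by
    intro t ht q hq hqt
    by_contra hcon
    push Not at hcon
    have hqSe : q ∈ Se := by rw [hSe]; exact ⟨hq, hcon⟩
    have h5 := hSd q hqSe
    have h6 := le_T hS t hp
    have h7 : p.2 = T S 0 := by rw [← h3]; ring
    have c1 : |t * q.1| ≤ R * |t| := by
      rw [abs_mul, mul_comm]; exact mul_le_mul_of_nonneg_right (hR q hq) (abs_nonneg _)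
    have c2 : |t * p.1| ≤ R * |t| := by
      rw [abs_mul, mul_comm]; exact mul_le_mul_of_nonneg_right (hR p hp) (abs_nonneg _)
    rw [abs_le] at c1 c2
    nlinarith
  have hev : ∀ᶠ j in atTop, 2 * R * |τ j| < d := by
    have : Tendsto (fun j => 2 * R * |τ j|) atTop (𝓝 (2 * R * |(0 : ℝ)|)) :=
      (hτ.abs).const_mul _
    simp only [abs_zero, mul_zero] at this
    exact this.eventually (gt_mem_nhds hd)
  obtain ⟨N, hN⟩ := eventually_atTop.1 hev
  refine ⟨N, fun j hj => ?_⟩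
  have htj := hpos j
  have hj' := hN j hj
  obtain ⟨q, hq, hq1, _⟩ := T_exists hS hne (τ j)
  obtain ⟨q', hq', hq1', _⟩ := T_exists hS hne (-τ j)
  have n1 := hnear (τ j) hj' q hq hq1
  have n2 := hnear (-τ j) (by rwa [abs_neg]) q' hq' hq1'
  have n3 := T_second_nonneg hS hne (τ j)
  have m1 := le_T hS 0 hq
  have m2 := le_T hS 0 hq'
  have hle : T S (τ j) + T S (-τ j) - 2 * T S 0 ≤ τ j * (q'.1 - q.1) := by
    rw [← hq1, ← hq1']
    nlinarith
  have habs : q'.1 - q.1 < e := by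
    rw [abs_lt] at n1 n2
    linarith
  rw [Real.dist_eq, sub_zero, abs_of_nonneg (div_nonneg n3 htj.le), div_lt_iff₀ htj]
  calc T S (τ j) + T S (-τ j) - 2 * T S 0 ≤ τ j * (q'.1 - q.1) := hle
    _ < τ j * e := by
        exact (mul_lt_mul_iff_right₀ htj).2 habs
    _ = e * τ j := mul_comm _ _

end PV.KC
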