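import Pool.Agent.Helper65_PV.Stmts
import Pool.Agent.Helper65_PV.KC1

/-!
Squad PV, module KC, part 2: slices and Fubini.
-/

set_option autoImplicit false
set_option linter.unusedSectionVars false

open MeasureTheory Metric Set Filter Topology

namespace PV.KC

lemma B_sub_le {S : Set (ℝ × ℝ)} (hS : IsCompact S) (hne : S.Nonempty) {R : ℝ}
    (hR : ∀ q ∈ S, |q.1| ≤ R) (t : ℝ) : |B S t - B S 0| ≤ R * |t| := by
  have := T_sub_le (refl_compact hS) (refl_nonempty hne) (R := R)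
    (fun q hq => hR (q.1, -q.2) hq) (-t)
  unfold B
  rw [abs_neg] at this
  rw [neg_zero, show -T (refl S) (-t) - -T (refl S) 0 = -(T (refl S) (-t) - T (refl S) 0) by ring,
    abs_neg]
  exact this

lemma B_second_nonpos {S : Set (ℝ × ℝ)} (hS : IsCompact S) (hne : S.Nonempty) (t : ℝ) :
    B S t + B S (-t) - 2 * B S 0 ≤ 0 := by
  have := T_second_nonneg (refl_compact hS) (refl_nonempty hne) t
  unfold B
  rw [neg_zero, neg_neg]
  linarith

variable {Z : Type} [NormedAddCommGroup Z] [InnerProductSpace ℝ Z]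

/-- The slice over `z`. -/
def slice (X : Set (ℝ × ℝ × Z)) (z : Z) : Set (ℝ × ℝ) := {q | (q.1, q.2, z) ∈ X}

lemma slice_compact {X : Set (ℝ × ℝ × Z)} (hX : IsCompact X) (z : Z) : IsCompact (slice X z) := by
  have : slice X z = (fun p : ℝ × ℝ × Z => (p.1, p.2.1)) '' (X ∩ {p | p.2.2 = z}) := by
    ext q
    constructor
    · intro hq
      exact ⟨(q.1, q.2, z), ⟨hq, rfl⟩, rfl⟩
    · rintro ⟨p, ⟨hp, hz⟩, rfl⟩
      simp only [Set.mem_ofPred_eq] at hz
      subst hz
      exact hp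
  rw [this]
  refine IsCompact.image (hX.inter_right ?_) (by fun_prop)
  exact isClosed_eq (by fun_prop) continuous_const

lemma slice_convex {X : Set (ℝ × ℝ × Z)} (hX : Convex ℝ X) (z : Z) : Convex ℝ (slice X z) := by
  intro q hq q' hq' a b ha hb hab
  have := hX hq hq' ha hb hab
  have hz : a • z + b • z = z := by rw [← add_smul, hab, one_smul]
  simpa [slice, hz] using this

lemma shadow_compact {X : Set (ℝ × ℝ × Z)} (hX : IsCompact X) (t : ℝ) :
    IsCompact (shadow t X) := by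
  have : shadow t X = (fun p : ℝ × ℝ × Z => (p.2.1 - t * p.1, p.2.2)) '' X := by
    ext q
    constructor
    · rintro ⟨s, hs⟩
      exact ⟨_, hs, by simp⟩
    · rintro ⟨p, hp, rfl⟩
      exact ⟨p.1, by simpa using hp⟩
  rw [this]
  exact hX.image (by fun_prop)

lemma shadow_convex {X : Set (ℝ × ℝ × Z)} (hX : Convex ℝ X) (t : ℝ) :
    Convex ℝ (shadow t X) := by
  rintro p ⟨s, hs⟩ p' ⟨s', hs'⟩ a b ha hb hab
  refine ⟨a * s + b * s', ?_⟩
  have := hX hs hs' ha hb hab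
  convert this using 1
  simp only [Prod.smul_mk, Prod.mk_add_mk, smul_eq_mul, Prod.fst_add, Prod.smul_fst, Prod.snd_add,
    Prod.smul_snd]
  congr 2
  ring

lemma mem_shadow_iff {X : Set (ℝ × ℝ × Z)} (t ρ : ℝ) (z : Z) :
    (ρ, z) ∈ shadow t X ↔ ∃ q ∈ slice X z, q.2 - t * q.1 = ρ := by
  constructor
  · rintro ⟨s, hs⟩
    exact ⟨(s, ρ + t * s), hs, by simp⟩
  · rintro ⟨q, hq, rfl⟩
    exact ⟨q.1, by simpa [slice] using hq⟩

lemma shadow_slice {X : Set (ℝ × ℝ × Z)} (hX : IsCompact X) (hXc : Convex ℝ X) (t : ℝ) (z : Z)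
    (hne : (slice X z).Nonempty) (ρ : ℝ) :
    (ρ, z) ∈ shadow t X ↔ ρ ∈ Icc (B (slice X z) t) (T (slice X z) t) := by
  have hS := slice_compact hX z
  rw [mem_shadow_iff]
  constructor
  · rintro ⟨q, hq, rfl⟩
    obtain ⟨_, _, _, h⟩ := B_exists hS hne t
    exact ⟨h q hq, le_T hS t hq⟩
  · intro hρ
    obtain ⟨q, hq, h1, _⟩ := B_exists hS hne t
    obtain ⟨q', hq', h1', _⟩ := T_exists hS hne t
    have hpre : IsPreconnected ((fun q : ℝ × ℝ => q.2 - t * q.1) '' (slice X z)) :=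
      (slice_convex hXc z).isPreconnected.image _ (by fun_prop)
    have := hpre.Icc_subset ⟨q, hq, h1⟩ ⟨q', hq', h1'⟩ hρ
    obtain ⟨p, hp, hp2⟩ := this
    exact ⟨p, hp, hp2⟩

lemma B_le_T {S : Set (ℝ × ℝ)} (hS : IsCompact S) (hne : S.Nonempty) (t : ℝ) : B S t ≤ T S t := by
  obtain ⟨q, hq, h1, _⟩ := B_exists hS hne t
  rw [← h1]
  exact le_T hS t hq

/-- The antiderivative. -/
noncomputable def Psi (f : (ℝ × Z) →L[ℝ] ℝ) (k : ℝ) (z : Z) (x : ℝ) : ℝ :=
  f (1, 0) * x ^ 2 / 2 + (f (0, z) + k) * x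

lemma f_split (f : (ℝ × Z) →L[ℝ] ℝ) (x : ℝ) (z : Z) : f (x, z) = f (1, 0) * x + f (0, z) := by
  have : ((x, z) : ℝ × Z) = x • ((1 : ℝ), (0 : Z)) + (0, z) := by simp
  rw [this, map_add, map_smul, smul_eq_mul, mul_comm]

lemma Psi_diff (f : (ℝ × Z) →L[ℝ] ℝ) (k : ℝ) (z : Z) (x y : ℝ) :
    Psi f k z y - Psi f k z x = (f (x, z) + k) * (y - x) + f (1, 0) / 2 * (y - x) ^ 2 := by
  unfold Psi
  rw [f_split f x z]
  ring

/-- The inner integral. -/
noncomputable def g (X : Set (ℝ × ℝ × Z)) (f : (ℝ × Z) →L[ℝ] ℝ) (k t : ℝ) (z : Z) : ℝ :=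
  ∫ ρ : ℝ, (shadow t X).indicator (fun p => f p + k) (ρ, z)

lemma g_eq {X : Set (ℝ × ℝ × Z)} (hX : IsCompact X) (hXc : Convex ℝ X)
    (f : (ℝ × Z) →L[ℝ] ℝ) (k t : ℝ) (z : Z) (hne : (slice X z).Nonempty) :
    g X f k t z = Psi f k z (T (slice X z) t) - Psi f k z (B (slice X z) t) := by
  have hS := slice_compact hX z
  have h1 : ∀ ρ : ℝ, (shadow t X).indicator (fun p => f p + k) (ρ, z) =
      (Icc (B (slice X z) t) (T (slice X z) t)).indicator (fun ρ => f (ρ, z) + k) ρ := by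
    intro ρ
    by_cases h : (ρ, z) ∈ shadow t X
    · rw [indicator_of_mem h, indicator_of_mem ((shadow_slice hX hXc t z hne ρ).1 h)]
    · rw [indicator_of_notMem h, indicator_of_notMem]
      exact fun h' => h ((shadow_slice hX hXc t z hne ρ).2 h')
  unfold g
  simp_rw [h1]
  rw [integral_indicator measurableSet_Icc, integral_Icc_eq_integral_Ioc,
    ← intervalIntegral.integral_of_le (B_le_T hS hne t)]
  have h2 : (fun ρ : ℝ => f (ρ, z) + k) = fun ρ : ℝ => f (1, 0) * ρ + (f (0, z) + k) := by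
    funext ρ; rw [f_split f ρ z]; ring
  rw [h2]
  rw [intervalIntegral.integral_add (Continuous.intervalIntegrable (by fun_prop) _ _)
    (Continuous.intervalIntegrable (by fun_prop) _ _),
    intervalIntegral.integral_const_mul, integral_id, intervalIntegral.integral_const]
  unfold Psi
  simp only [smul_eq_mul]
  ring

lemma g_empty {X : Set (ℝ × ℝ × Z)} (f : (ℝ × Z) →L[ℝ] ℝ) (k t : ℝ) (z : Z)
    (hne : ¬ (slice X z).Nonempty) : g X f k t z = 0 := by
  have h1 : ∀ ρ : ℝ, (shadow t X).indicator (fun p => f p + k) (ρ, z) = 0 := by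
    intro ρ
    rw [indicator_of_notMem]
    intro h
    obtain ⟨q, hq, _⟩ := (mem_shadow_iff t ρ z).1 h
    exact hne ⟨q, hq⟩
  unfold g
  simp_rw [h1]
  simp

variable [FiniteDimensional ℝ Z] [MeasurableSpace Z] [BorelSpace Z]

lemma G_eq (μ : Measure Z) [μ.IsAddHaarMeasure] {X : Set (ℝ × ℝ × Z)} (hX : IsCompact X)
    (f : (ℝ × Z) →L[ℝ] ℝ) (k t : ℝ) :
    (∫ p in shadow t X, (f p + k) ∂((volume : Measure ℝ).prod μ) = ∫ z, g X f k t z ∂μ) ∧
      Integrable (g X f k t) μ := by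
  have hc := shadow_compact hX t
  have hint : Integrable ((shadow t X).indicator (fun p => f p + k))
      ((volume : Measure ℝ).prod μ) := by
    rw [integrable_indicator_iff hc.measurableSet]
    exact ContinuousOn.integrableOn_compact hc (by fun_prop)
  refine ⟨?_, hint.integral_prod_right⟩
  rw [← integral_indicator hc.measurableSet, integral_prod_symm _ hint]
  rfl

end PV.KC
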