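import Pool.Agent.Helper65_PV.KC2

/-!
Squad PV, module KC: the key lemma in coordinates.
-/

set_option autoImplicit false
set_option linter.unusedSectionVars false

open MeasureTheory Metric Set Filter Topology

namespace PV.KC

variable {Z : Type} [NormedAddCommGroup Z] [InnerProductSpace ℝ Z]

/-- Second difference of the inner integral. -/
noncomputable def q (X : Set (ℝ × ℝ × Z)) (f : (ℝ × Z) →L[ℝ] ℝ) (k t : ℝ) (z : Z) : ℝ :=
  g X f k t z + g X f k (-t) z - 2 * g X f k 0 z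

lemma second_eq {X : Set (ℝ × ℝ × Z)} (hX : IsCompact X) (hXc : Convex ℝ X)
    (f : (ℝ × Z) →L[ℝ] ℝ) (k t : ℝ) (z : Z) (hne : (slice X z).Nonempty) :
    q X f k t z = (f (T (slice X z) 0, z) + k) *
        (T (slice X z) t + T (slice X z) (-t) - 2 * T (slice X z) 0) -
      (f (B (slice X z) 0, z) + k) *
        (B (slice X z) t + B (slice X z) (-t) - 2 * B (slice X z) 0) +
      f (1, 0) / 2 * ((T (slice X z) t - T (slice X z) 0) ^ 2 +
        (T (slice X z) (-t) - T (slice X z) 0) ^ 2 - (B (slice X z) t - B (slice X z) 0) ^ 2 -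
        (B (slice X z) (-t) - B (slice X z) 0) ^ 2) := by
  unfold q
  rw [g_eq hX hXc f k t z hne, g_eq hX hXc f k (-t) z hne, g_eq hX hXc f k 0 z hne]
  have h1 := Psi_diff f k z (T (slice X z) 0) (T (slice X z) t)
  have h2 := Psi_diff f k z (T (slice X z) 0) (T (slice X z) (-t))
  have h3 := Psi_diff f k z (B (slice X z) 0) (B (slice X z) t)
  have h4 := Psi_diff f k z (B (slice X z) 0) (B (slice X z) (-t))
  linear_combination h1 + h2 - h3 - h4

lemma q_empty {X : Set (ℝ × ℝ × Z)} (f : (ℝ × Z) →L[ℝ] ℝ) (k t : ℝ) (z : Z)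
    (hne : ¬ (slice X z).Nonempty) : q X f k t z = 0 := by
  unfold q
  rw [g_empty f k t z hne, g_empty f k (-t) z hne, g_empty f k 0 z hne]
  ring

lemma T_mem {X : Set (ℝ × ℝ × Z)} (hX : IsCompact X) (z : Z) (hne : (slice X z).Nonempty) :
    (T (slice X z) 0, z) ∈ shadow 0 X := by
  obtain ⟨p, hp, h, _⟩ := T_exists (slice_compact hX z) hne 0
  exact (mem_shadow_iff 0 _ z).2 ⟨p, hp, h⟩

lemma B_mem {X : Set (ℝ × ℝ × Z)} (hX : IsCompact X) (z : Z) (hne : (slice X z).Nonempty) :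
    (B (slice X z) 0, z) ∈ shadow 0 X := by
  obtain ⟨p, hp, h, _⟩ := B_exists (slice_compact hX z) hne 0
  exact (mem_shadow_iff 0 _ z).2 ⟨p, hp, h⟩

lemma slice_bound {X : Set (ℝ × ℝ × Z)} {R : ℝ} (hR : ∀ p ∈ X, |p.1| ≤ R) (z : Z) :
    ∀ q ∈ slice X z, |q.1| ≤ R := fun q hq => hR _ hq

/-- Squares of the increments. -/
lemma sq_bound {x R t : ℝ} (h : |x| ≤ R * |t|) : x ^ 2 ≤ R ^ 2 * t ^ 2 := by
  have h0 : 0 ≤ |x| := abs_nonneg x
  calc x ^ 2 = |x| ^ 2 := (sq_abs x).symm
    _ ≤ (R * |t|) ^ 2 := by gcongr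
    _ = R ^ 2 * t ^ 2 := by rw [mul_pow, sq_abs]

/-- Upper bound of the second difference when the functional is nonpositive on the shadow. -/
lemma second_D {X : Set (ℝ × ℝ × Z)} (hX : IsCompact X) (hXc : Convex ℝ X)
    (f : (ℝ × Z) →L[ℝ] ℝ) (k t : ℝ) {R : ℝ} (hR : ∀ p ∈ X, |p.1| ≤ R)
    (hneg : ∀ p ∈ shadow 0 X, f p + k ≤ 0) (z : Z) :
    q X f k t z ≤ ((fun p : ℝ × ℝ × Z => p.2.2) '' X).indicator
      (fun _ => 2 * |f (1, 0)| * R ^ 2 * t ^ 2) z := by
  by_cases hne : (slice X z).Nonempty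
  · have hS := slice_compact hX z
    have hz : z ∈ (fun p : ℝ × ℝ × Z => p.2.2) '' X := by
      obtain ⟨p, hp⟩ := hne
      exact ⟨(p.1, p.2, z), hp, rfl⟩
    rw [indicator_of_mem hz, second_eq hX hXc f k t z hne]
    have hRz := slice_bound hR z
    have t1 := sq_bound (T_sub_le hS hne hRz t)
    have t2 := sq_bound (T_sub_le hS hne hRz (-t))
    have b1 := sq_bound (B_sub_le hS hne hRz t)
    have b2 := sq_bound (B_sub_le hS hne hRz (-t))
    have dT := T_second_nonneg hS hne t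
    have dB := B_second_nonpos hS hne t
    have lT := hneg _ (T_mem hX z hne)
    have lB := hneg _ (B_mem hX z hne)
    have e1 : (f (T (slice X z) 0, z) + k) *
        (T (slice X z) t + T (slice X z) (-t) - 2 * T (slice X z) 0) ≤ 0 :=
      mul_nonpos_of_nonpos_of_nonneg lT dT
    have e2 : 0 ≤ (f (B (slice X z) 0, z) + k) *
        (B (slice X z) t + B (slice X z) (-t) - 2 * B (slice X z) 0) :=
      mul_nonneg_of_nonpos_of_nonpos lB dB
    have e3 : f (1, 0) / 2 * ((T (slice X z) t - T (slice X z) 0) ^ 2 +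
        (T (slice X z) (-t) - T (slice X z) 0) ^ 2 - (B (slice X z) t - B (slice X z) 0) ^ 2 -
        (B (slice X z) (-t) - B (slice X z) 0) ^ 2) ≤ 2 * |f (1, 0)| * R ^ 2 * t ^ 2 := by
      rw [neg_sq] at t2 b2
      refine (le_abs_self _).trans ?_
      rw [abs_mul, abs_div, abs_two]
      have : |(T (slice X z) t - T (slice X z) 0) ^ 2 +
        (T (slice X z) (-t) - T (slice X z) 0) ^ 2 - (B (slice X z) t - B (slice X z) 0) ^ 2 -
        (B (slice X z) (-t) - B (slice X z) 0) ^ 2| ≤ 4 * (R ^ 2 * t ^ 2) := by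
        rw [abs_le]
        constructor <;> nlinarith [sq_nonneg (T (slice X z) t - T (slice X z) 0),
          sq_nonneg (T (slice X z) (-t) - T (slice X z) 0),
          sq_nonneg (B (slice X z) t - B (slice X z) 0),
          sq_nonneg (B (slice X z) (-t) - B (slice X z) 0), mul_nonneg (sq_nonneg R) (sq_nonneg t)]
      have h0 : 0 ≤ |f (1, 0)| / 2 := by positivity
      nlinarith [mul_le_mul_of_nonneg_left this h0]
    linarith
  · rw [q_empty f k t z hne, indicator_of_notMem]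
    rintro ⟨p, hp, rfl⟩
    exact hne ⟨(p.1, p.2.1), hp⟩

/-- A bound for the absolute value of the second difference. -/
lemma second_abs {X : Set (ℝ × ℝ × Z)} (hX : IsCompact X) (hXc : Convex ℝ X)
    (f : (ℝ × Z) →L[ℝ] ℝ) (k t : ℝ) {R L : ℝ} (hR : ∀ p ∈ X, |p.1| ≤ R) (hR0 : 0 ≤ R)
    (hL : ∀ p ∈ shadow 0 X, |f p + k| ≤ L) (z : Z) (hne : (slice X z).Nonempty) (ht : 0 < t)
    (ht1 : t ≤ 1) :
    |q X f k t z / t| ≤ 4 * L * R + 2 * |f (1, 0)| * R ^ 2 := by
  have hS := slice_compact hX z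
  have hRz := slice_bound hR z
  have t1 := T_sub_le hS hne hRz t
  have t2 := T_sub_le hS hne hRz (-t)
  have b1 := B_sub_le hS hne hRz t
  have b2 := B_sub_le hS hne hRz (-t)
  have lT := hL _ (T_mem hX z hne)
  have lB := hL _ (B_mem hX z hne)
  rw [abs_neg] at t2 b2
  rw [abs_of_pos ht] at t1 t2 b1 b2
  have hL0 : 0 ≤ L := (abs_nonneg _).trans lT
  have sT : |T (slice X z) t + T (slice X z) (-t) - 2 * T (slice X z) 0| ≤ 2 * R * t := by
    rw [show T (slice X z) t + T (slice X z) (-t) - 2 * T (slice X z) 0 =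
      (T (slice X z) t - T (slice X z) 0) + (T (slice X z) (-t) - T (slice X z) 0) by ring]
    exact (abs_add_le _ _).trans (by linarith)
  have sB : |B (slice X z) t + B (slice X z) (-t) - 2 * B (slice X z) 0| ≤ 2 * R * t := by
    rw [show B (slice X z) t + B (slice X z) (-t) - 2 * B (slice X z) 0 =
      (B (slice X z) t - B (slice X z) 0) + (B (slice X z) (-t) - B (slice X z) 0) by ring]
    exact (abs_add_le _ _).trans (by linarith)
  have hsq : ∀ x : ℝ, |x| ≤ R * t → x ^ 2 ≤ R ^ 2 * t ^ 2 := fun x hx => by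
    have := sq_bound (x := x) (R := R) (t := t) (by rwa [abs_of_pos ht])
    exact this
  have e1 : |(f (T (slice X z) 0, z) + k) *
        (T (slice X z) t + T (slice X z) (-t) - 2 * T (slice X z) 0)| ≤ L * (2 * R * t) := by
    rw [abs_mul]; exact mul_le_mul lT sT (abs_nonneg _) hL0
  have e2 : |(f (B (slice X z) 0, z) + k) *
        (B (slice X z) t + B (slice X z) (-t) - 2 * B (slice X z) 0)| ≤ L * (2 * R * t) := by
    rw [abs_mul]; exact mul_le_mul lB sB (abs_nonneg _) hL0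
  have e3 : |f (1, 0) / 2 * ((T (slice X z) t - T (slice X z) 0) ^ 2 +
        (T (slice X z) (-t) - T (slice X z) 0) ^ 2 - (B (slice X z) t - B (slice X z) 0) ^ 2 -
        (B (slice X z) (-t) - B (slice X z) 0) ^ 2)| ≤ 2 * |f (1, 0)| * R ^ 2 * t := by
    rw [abs_mul, abs_div, abs_two]
    have : |(T (slice X z) t - T (slice X z) 0) ^ 2 +
        (T (slice X z) (-t) - T (slice X z) 0) ^ 2 - (B (slice X z) t - B (slice X z) 0) ^ 2 -
        (B (slice X z) (-t) - B (slice X z) 0) ^ 2| ≤ 4 * (R ^ 2 * t ^ 2) := by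
      have := hsq _ t1
      have := hsq _ t2
      have := hsq _ b1
      have := hsq _ b2
      rw [abs_le]
      constructor <;> nlinarith [sq_nonneg (T (slice X z) t - T (slice X z) 0),
          sq_nonneg (T (slice X z) (-t) - T (slice X z) 0),
          sq_nonneg (B (slice X z) t - B (slice X z) 0),
          sq_nonneg (B (slice X z) (-t) - B (slice X z) 0), mul_nonneg (sq_nonneg R) (sq_nonneg t)]
    have h0 : 0 ≤ |f (1, 0)| / 2 := by positivity
    have h1 : t ^ 2 ≤ t := by nlinarith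
    have h2 : 4 * (R ^ 2 * t ^ 2) ≤ 4 * (R ^ 2 * t) := by
      have := mul_le_mul_of_nonneg_left h1 (sq_nonneg R)
      linarith
    nlinarith [mul_le_mul_of_nonneg_left (this.trans h2) h0]
  rw [abs_div, abs_of_pos ht, div_le_iff₀ ht, second_eq hX hXc f k t z hne]
  rw [abs_le] at e1 e2 e3 ⊢
  constructor
  · linarith [e1.1, e2.2, e3.1]
  · linarith [e1.2, e2.1, e3.2]

end PV.KC
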