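import Mathlib

/-!
Squad PV (MP_e25c73_gt): most convex bodies are determined by their projection volumes and
projection centroids. Definitions and statements of all modules.
-/

set_option autoImplicit false

open MeasureTheory Metric Set Filter Topology

namespace PV

/-- Euclidean `n`-space. -/
abbrev E (n : ℕ) := EuclideanSpace ℝ (Fin n)

/-- The orthogonal projection of `x` onto the hyperplane orthogonal to the unit vector `u`. -/
noncomputable def proj {n : ℕ} (u x : E n) : E n := x - (inner ℝ x u) • u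

/-- The brightness function: `(n-1)`-dimensional volume of the projection along `u`. -/
noncomputable def brightness {n : ℕ} (K : Set (E n)) (u : E n) : ENNReal :=
  Measure.hausdorffMeasure ((n : ℝ) - 1) (proj u '' K)

/-- The centroid of the projection along `u`. -/
noncomputable def centroid {n : ℕ} (K : Set (E n)) (u : E n) : E n :=
  (brightness K u).toReal⁻¹ •
    ∫ x in proj u '' K, x ∂(Measure.hausdorffMeasure ((n : ℝ) - 1) : Measure (E n))

/-- Equal projection volumes and equal projection centroids in every direction. -/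
def SameData {n : ℕ} (K L : Set (E n)) : Prop :=
  ∀ u : E n, ‖u‖ = 1 → brightness K u = brightness L u ∧ centroid K u = centroid L u

/-- Nonempty interior. -/
def Full {n : ℕ} (K : Set (E n)) : Prop := (interior K).Nonempty

/-- The convex bodies (with interior points) that are determined by their projection volumes and
projection centroids among all convex bodies (with interior points). -/
def Determined (n : ℕ) : Set (ConvexBody (E n)) :=
  {K | (interior (K : Set (E n))).Nonempty ∧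
    ∀ L : ConvexBody (E n), (interior (L : Set (E n))).Nonempty →
      SameData (K : Set (E n)) (L : Set (E n)) → K = L}

/-- The shadow in coordinates `(s, r, z)` along the direction `(1, t, 0)` on `s = 0`. -/
def shadow {Z : Type} (t : ℝ) (C : Set (ℝ × ℝ × Z)) : Set (ℝ × Z) :=
  {p | ∃ s : ℝ, (s, p.1 + t * s, p.2) ∈ C}

/-- Coordinates `(s, r, z) ↦ s u + r ν + ι z`. -/
noncomputable def coord {n : ℕ} {Z : Type} [NormedAddCommGroup Z] [InnerProductSpace ℝ Z]
    (u ν : E n) (ι : Z →ₗᵢ[ℝ] E n) (p : ℝ × ℝ × Z) : E n :=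
  p.1 • u + p.2.1 • ν + ι p.2.2

/-- KC: the key lemma in coordinates. -/
def KCStmt : Prop :=
  ∀ (Z : Type) [NormedAddCommGroup Z] [InnerProductSpace ℝ Z] [FiniteDimensional ℝ Z]
    [MeasurableSpace Z] [BorelSpace Z] (μ : Measure Z) [μ.IsAddHaarMeasure]
    (C D : Set (ℝ × ℝ × Z)), IsCompact C → Convex ℝ C → IsCompact D → Convex ℝ D →
    ∀ c : ℝ, (∀ p ∈ C, p.2.1 ≤ c) →
    (∀ (s₁ s₂ r : ℝ) (z : Z), (s₁, r, z) ∈ C → (s₂, r, z) ∈ C → s₁ ≠ s₂ →
      (∃ e : ℝ, 0 < e ∧ ((s₁ + s₂) / 2, r - e, z) ∈ C) ∧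
      (r < c → ∃ e : ℝ, 0 < e ∧ ((s₁ + s₂) / 2, r + e, z) ∈ C)) →
    (∃ (s₀ : ℝ) (z₀ : Z) (e : ℝ), 0 < e ∧
      ∀ (s : ℝ) (z : Z), |s - s₀| < e → dist z z₀ < e → (s, c, z) ∈ C) →
    D.Nonempty →
    (∀ (t : ℝ) (f : (ℝ × Z) →L[ℝ] ℝ) (k : ℝ),
      ∫ p in shadow t C, (f p + k) ∂((volume : Measure ℝ).prod μ) =
        ∫ p in shadow t D, (f p + k) ∂((volume : Measure ℝ).prod μ)) →
    ∃ (z : Z) (s s' : ℝ), (s, c, z) ∈ C ∧ (s', c, z) ∈ D

/-- TR: transfer of the data to coordinates. -/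
def TRStmt : Prop :=
  ∀ (n : ℕ) (Z : Type) [NormedAddCommGroup Z] [InnerProductSpace ℝ Z] [FiniteDimensional ℝ Z]
    [MeasurableSpace Z] [BorelSpace Z] (μ : Measure Z) [μ.IsAddHaarMeasure]
    (u ν : E n) (ι : Z →ₗᵢ[ℝ] E n), Module.finrank ℝ Z + 2 = n → ‖u‖ = 1 → ‖ν‖ = 1 →
    inner ℝ u ν = 0 → (∀ z, inner ℝ u (ι z) = 0) → (∀ z, inner ℝ ν (ι z) = 0) →
    ∀ K L : Set (E n), IsCompact K → IsCompact L → Full K → Full L → SameData K L →
    ∀ (t : ℝ) (f : (ℝ × Z) →L[ℝ] ℝ) (k : ℝ),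
      ∫ p in shadow t (coord u ν ι ⁻¹' K), (f p + k) ∂((volume : Measure ℝ).prod μ) =
        ∫ p in shadow t (coord u ν ι ⁻¹' L), (f p + k) ∂((volume : Measure ℝ).prod μ)

/-- KE: the key lemma in Euclidean space. -/
def KEStmt : Prop :=
  ∀ (n : ℕ), 2 ≤ n → ∀ (K' L : Set (E n)) (ν u : E n) (c : ℝ),
    IsCompact K' → StrictConvex ℝ K' → (∃ x ∈ interior K', inner ℝ x ν = c) →
    IsCompact L → Convex ℝ L → Full L → ‖ν‖ = 1 → ‖u‖ = 1 → inner ℝ u ν = 0 →
    SameData (K' ∩ {x | inner ℝ x ν ≤ c}) L →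
    ∃ x ∈ K', inner ℝ x ν = c ∧ ∃ s : ℝ, x + s • u ∈ L

/-- CV: continuity of integrals over compact convex sets. -/
def CVStmt : Prop :=
  ∀ (W : Type) [NormedAddCommGroup W] [InnerProductSpace ℝ W] [FiniteDimensional ℝ W]
    [MeasurableSpace W] [BorelSpace W] (μ : Measure W) [μ.IsAddHaarMeasure]
    (A : ℕ → Set W) (A' : Set W), (∀ j, IsCompact (A j)) → (∀ j, Convex ℝ (A j)) →
    IsCompact A' → Convex ℝ A' →
    (∀ e : ℝ, 0 < e → ∀ᶠ j in atTop, A j ⊆ thickening e A' ∧ A' ⊆ thickening e (A j)) →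
    ∀ g : W → ℝ, Continuous g →
      Tendsto (fun j => ∫ x in A j, g x ∂μ) atTop (𝓝 (∫ x in A', g x ∂μ))

/-- CO: the relation `SameData` is closed, and degenerate limits are excluded. -/
def COStmt : Prop :=
  ∀ (n : ℕ), 2 ≤ n → ∀ (K L : ℕ → ConvexBody (E n)) (K' L' : ConvexBody (E n)),
    (∀ j, Full (K j : Set (E n)) ∧ Full (L j : Set (E n)) ∧
      SameData (K j : Set (E n)) (L j : Set (E n))) →
    Tendsto K atTop (𝓝 K') → Tendsto L atTop (𝓝 L') → Full (K' : Set (E n)) →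
    Full (L' : Set (E n)) ∧ SameData (K' : Set (E n)) (L' : Set (E n))

/-- CS: the space of convex bodies is complete. -/
def CSStmt : Prop := ∀ n : ℕ, CompleteSpace (ConvexBody (E n))

/-- BL: Blaschke selection. -/
def BLStmt : Prop :=
  ∀ (n : ℕ) (R : ℝ) (L : ℕ → ConvexBody (E n)),
    (∀ j, (L j : Set (E n)) ⊆ closedBall 0 R) →
    ∃ (L' : ConvexBody (E n)) (φ : ℕ → ℕ), StrictMono φ ∧ Tendsto (L ∘ φ) atTop (𝓝 L') ∧
      (L' : Set (E n)) ⊆ closedBall 0 R

/-- SC: strictly convex bodies are dense. -/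
def SCStmt : Prop :=
  ∀ (n : ℕ) (K₀ : ConvexBody (E n)) (e : ℝ), 0 < e → ∃ K' : ConvexBody (E n),
    dist K₀ K' < e ∧ StrictConvex ℝ (K' : Set (E n)) ∧ Full (K' : Set (E n))

/-- FO: having interior points is an open property. -/
def FOStmt : Prop := ∀ n : ℕ, IsOpen {K : ConvexBody (E n) | Full (K : Set (E n))}

/-- MO: inclusion and equal data give equality. -/
def MOStmt : Prop :=
  ∀ (n : ℕ), 2 ≤ n → ∀ K L : Set (E n), IsCompact K → Convex ℝ K → Full K →
    IsCompact L → Convex ℝ L → Full L → SameData K L → K ⊆ L → K = L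

/-- The open dense sets of the Baire argument. -/
def U (n : ℕ) (ν : E n) (m : ℕ) : Set (ConvexBody (E n)) :=
  {K | Full (K : Set (E n)) ∧ ∀ L : ConvexBody (E n), Full (L : Set (E n)) →
    (L : Set (E n)) ⊆ closedBall 0 (m : ℝ) → SameData (K : Set (E n)) (L : Set (E n)) →
    ∃ x ∈ (L : Set (E n)), infDist x (K : Set (E n)) < 1 / ((m : ℝ) + 1) ∧
      ∀ y ∈ (K : Set (E n)), inner ℝ y ν < inner ℝ x ν + 1 / ((m : ℝ) + 1)}

/-- The open sets whose intersection is `Determined`. -/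
def DD (n : ℕ) (m : ℕ) : Set (ConvexBody (E n)) :=
  {K | Full (K : Set (E n)) ∧ ∀ L : ConvexBody (E n), Full (L : Set (E n)) →
    (L : Set (E n)) ⊆ closedBall 0 (m : ℝ) → SameData (K : Set (E n)) (L : Set (E n)) →
    dist K L < 1 / ((m : ℝ) + 1)}

/-- UO: the sets `U` are open. -/
def UOStmt : Prop := ∀ (n : ℕ), 2 ≤ n → ∀ (ν : E n) (m : ℕ), IsOpen (U n ν m)

/-- DO: the sets `DD` are open. -/
def DOStmt : Prop := ∀ (n : ℕ), 2 ≤ n → ∀ (m : ℕ), IsOpen (DD n m)

/-- UD: the sets `U` are dense (for unit vectors). -/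
def UDStmt : Prop := ∀ (n : ℕ), 3 ≤ n → ∀ (ν : E n), ‖ν‖ = 1 → ∀ (m : ℕ), Dense (U n ν m)

/-- The theorem. -/
def MainStmt : Prop := ∀ (n : ℕ), 3 ≤ n → IsGδ (Determined n) ∧ Dense (Determined n)

end PV
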